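import Mathlib

/-!
# MP_280d4a_an (Q1): weighted products of distances on the unit circle

For unimodular `z_1, ..., z_r` and weights `p_j ≥ 0` with `p_1 + ... + p_r = r` there is a
unimodular `ζ` with `∏ |ζ - z_j| ^ p_j ≥ 2`.

Idea.  Let `n` be the number of distinct points of positive weight, `w_j` the normalised weights,
`P(x) = ∏ (1 - a_j x)` with `a_j = conj z_j`, `D(x) = ∑ w_j ∏_{i ≠ j} (1 - a_i x)` and
`Q = 2 D - P`.  All zeros `ζ_k` of `Q` are simple and unimodular and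
`D = ∑ c_k ∏_{l ≠ k} (1 - conj ζ_l x)` with `c_k > 0`, `∑ c_k = 1` (theorem `dual`).  Writing
`D = ∏ (1 - b_i x)`, the logarithmic cross energy of the two signed measures
`∑ (w_j - 1/n) δ_{z_j} + (1/n) ∑ δ_{conj b_i}` and `∑ (c_k - 1/n) δ_{ζ_k} + (1/n) ∑ δ_{conj b_i}`
equals `∑ c_k u(ζ_k) - (log 2)/n`, `u(x) = ∑ w_j log |1 - a_j x|`, and it is nonnegative
(theorem `energy_nonneg`) because the corresponding rational functions `p, q` satisfy
`Re (p * conj q) ≤ 0` in the unit disc.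
-/

open Complex Real MeasureTheory Metric Finset Polynomial

namespace Pool.Agent.Results.MP_280d4a_an.WeightedDistances

/-- geometric kernel `c x / (1 - c x)` -/
noncomputable def ker (c x : ℂ) : ℂ := c * x / (1 - c * x)

lemma one_sub_ne {y : ℂ} (h : ‖y‖ < 1) : 1 - y ≠ 0 := by
  intro h0
  have : y = 1 := (sub_eq_zero.1 h0).symm
  rw [this] at h
  simp at h

lemma norm_mul_lt {c x : ℂ} (hc : ‖c‖ ≤ 1) (hx : ‖x‖ < 1) : ‖c * x‖ < 1 := by
  rw [norm_mul]
  calc ‖c‖ * ‖x‖ ≤ 1 * ‖x‖ := by gcongr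
    _ < 1 := by simpa using hx

lemma ker_eq {c x : ℂ} (h : 1 - c * x ≠ 0) : ker c x = 1 / (1 - c * x) - 1 := by
  unfold ker
  field_simp
  ring

lemma ker_diff {c x : ℂ} (h : 1 - c * x ≠ 0) : DifferentiableAt ℂ (ker c) x := by
  have h1 : DifferentiableAt ℂ (fun y : ℂ => c * y) x := by fun_prop
  have h2 : DifferentiableAt ℂ (fun y : ℂ => 1 - c * y) x := by fun_prop
  exact h1.div h2 h

lemma ker_contOn {c : ℂ} (hc : ‖c‖ ≤ 1) {ρ : ℝ} (hρ : ρ < 1) :
    ContinuousOn (ker c) (sphere 0 ρ) := by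
  intro x hx
  have h1 : ‖x‖ < 1 := by
    have : ‖x‖ = ρ := by simpa using hx
    rw [this]; exact hρ
  exact (ker_diff (one_sub_ne (norm_mul_lt hc h1))).continuousAt.continuousWithinAt

theorem pairing {ι κ : Type} [Fintype ι] [Fintype κ] (α : ι → ℝ) (c : ι → ℂ)
    (hc : ∀ i, ‖c i‖ ≤ 1) (β : κ → ℝ) (e : κ → ℂ) (he : ∀ k, ‖e k‖ ≤ 1)
    (hneg : ∀ x : ℂ, ‖x‖ < 1 →
      ((∑ i, (α i : ℂ) * ker (c i) x) * (starRingEnd ℂ) (∑ k, (β k : ℂ) * ker (e k) x)).re ≤ 0)
    (s : ℝ) (hs0 : 0 < s) (hs1 : s < 1) :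
    (∑ k, (β k : ℂ) * ∑ i, (α i : ℂ) * ker (c i) (s * (starRingEnd ℂ) (e k))).re ≤ 0 := by
  set ρ := √s with hρ
  have hρ0 : 0 < ρ := Real.sqrt_pos.2 hs0
  have hρs : ρ * ρ = s := Real.mul_self_sqrt hs0.le
  have hρ1 : ρ < 1 := by nlinarith
  have habs : |ρ| = ρ := abs_of_pos hρ0
  set p : ℂ → ℂ := fun x => ∑ i, (α i : ℂ) * ker (c i) x with hp
  set q : ℂ → ℂ := fun x => ∑ k, (β k : ℂ) * ker (e k) x with hq
  have hpd : DiffContOnCl ℂ p (ball 0 |ρ|) := by
    apply DifferentiableOn.diffContOnCl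
    intro x hx
    have hx1 : ‖x‖ < 1 := by
      have h1 := closure_ball_subset_closedBall hx
      rw [habs, mem_closedBall_zero_iff] at h1
      linarith
    apply DifferentiableAt.differentiableWithinAt
    rw [hp]
    apply DifferentiableAt.fun_sum
    intro i _
    exact (ker_diff (one_sub_ne (norm_mul_lt (hc i) hx1))).const_mul _
  have hp0 : p 0 = 0 := by simp [hp, ker]
  have hmem : ∀ k, ((s : ℂ) * (starRingEnd ℂ) (e k)) ∈ ball (0 : ℂ) |ρ| := by
    intro k
    rw [habs, mem_ball_zero_iff, norm_mul, RCLike.norm_conj]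
    have h1 : ‖(s : ℂ)‖ = s := by simp [abs_of_pos hs0]
    rw [h1]
    calc s * ‖e k‖ ≤ s * 1 := by gcongr; exact he k
      _ < ρ := by nlinarith
  have h1 : ∀ k, circleAverage (fun z => ((z - 0) / (z - s * (starRingEnd ℂ) (e k))) • p z) 0 ρ
      = p (s * (starRingEnd ℂ) (e k)) := fun k => hpd.circleAverage_smul_div (hmem k)
  have h2 : circleAverage p 0 ρ = 0 := by rw [hpd.circleAverage, hp0]
  -- continuity of p, q on the sphere
  have hpc : ContinuousOn p (sphere 0 ρ) := by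
    rw [hp]
    apply continuousOn_finsetSum
    intro i _
    exact (ker_contOn (hc i) hρ1).const_smul (α i : ℂ)
  have hkc : ∀ k, ContinuousOn (ker (e k)) (sphere 0 ρ) := fun k => ker_contOn (he k) hρ1
  have hint : ∀ f : ℂ → ℂ, ContinuousOn f (sphere 0 ρ) → CircleIntegrable f 0 ρ := by
    intro f hf
    exact hf.circleIntegrable hρ0.le
  -- pair formula
  have h3 : ∀ k, circleAverage (fun z => p z * (starRingEnd ℂ) (ker (e k) z)) 0 ρ
      = p (s * (starRingEnd ℂ) (e k)) := by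
    intro k
    have hcongr : Set.EqOn (fun z => p z * (starRingEnd ℂ) (ker (e k) z))
        (fun z => ((z - 0) / (z - s * (starRingEnd ℂ) (e k))) • p z - p z) (sphere 0 |ρ|) := by
      intro z hz
      have hz1 : ‖z‖ = ρ := by
        rw [habs] at hz
        simpa using hz
      have hz0 : z ≠ 0 := by
        intro h0; rw [h0] at hz1; simp at hz1; linarith
      have hne : 1 - e k * z ≠ 0 := one_sub_ne (norm_mul_lt (he k) (by rw [hz1]; exact hρ1))
      have hzz : z * (starRingEnd ℂ) z = s := by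
        rw [Complex.mul_conj, Complex.normSq_eq_norm_sq, hz1, sq, hρs]
      have hne2 : 1 - (starRingEnd ℂ) (e k) * (starRingEnd ℂ) z ≠ 0 := by
        intro h0
        apply hne
        have := congrArg (starRingEnd ℂ) h0
        simpa using this
      have hne3 : z - s * (starRingEnd ℂ) (e k) = z * (1 - (starRingEnd ℂ) (e k) * (starRingEnd ℂ) z) := by
        rw [← hzz]; ring
      simp only [sub_zero, smul_eq_mul]
      rw [hne3, ker_eq hne]
      simp only [map_sub, map_div₀, map_one, map_mul]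
      field_simp
    rw [circleAverage_congr_sphere hcongr]
    have hc1 : CircleIntegrable (fun z => ((z - 0) / (z - s * (starRingEnd ℂ) (e k))) • p z) 0 ρ := by
      apply hint
      have hdd : ContinuousOn (fun z : ℂ => (z - 0) / (z - s * (starRingEnd ℂ) (e k)))
          (sphere 0 ρ) := by
        apply ContinuousOn.div
        · fun_prop
        · fun_prop
        intro z hz h0
        have h4 : z = s * (starRingEnd ℂ) (e k) := sub_eq_zero.1 h0
        have h5 := hmem k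
        rw [← h4, habs, mem_ball_zero_iff] at h5
        have : ‖z‖ = ρ := by simpa using hz
        linarith
      exact hdd.smul hpc
    rw [circleAverage_fun_sub hc1 (hint p hpc), h1 k, h2, sub_zero]
  -- sum up
  have h4 : circleAverage (fun z => p z * (starRingEnd ℂ) (q z)) 0 ρ
      = ∑ k, (β k : ℂ) * p (s * (starRingEnd ℂ) (e k)) := by
    have hfun : (fun z => p z * (starRingEnd ℂ) (q z))
        = fun z => ∑ k, (β k : ℂ) • (p z * (starRingEnd ℂ) (ker (e k) z)) := by
      funext z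
      simp only [hq, map_sum, map_mul, Complex.conj_ofReal, Finset.mul_sum, smul_eq_mul]
      refine Finset.sum_congr rfl fun k _ => ?_
      ring
    have hck : ∀ k, ContinuousOn (fun z => p z * (starRingEnd ℂ) (ker (e k) z)) (sphere 0 ρ) := by
      intro k
      apply hpc.mul
      exact Complex.continuous_conj.comp_continuousOn (hkc k)
    rw [hfun, circleAverage_fun_sum]
    · refine Finset.sum_congr rfl fun k _ => ?_
      rw [circleAverage_fun_smul, h3 k, smul_eq_mul]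
    · intro k _
      exact hint _ ((hck k).const_smul (β k : ℂ))
  change (∑ k, (β k : ℂ) * p (s * (starRingEnd ℂ) (e k))).re ≤ 0
  rw [← h4]
  have hqc : ContinuousOn q (sphere 0 ρ) := by
    rw [hq]
    apply continuousOn_finsetSum
    intro k _
    exact (hkc k).const_smul (β k : ℂ)
  have hpq : ContinuousOn (fun z => p z * (starRingEnd ℂ) (q z)) (sphere 0 ρ) :=
    hpc.mul (Complex.continuous_conj.comp_continuousOn hqc)
  have h5 : (circleAverage (fun z => p z * (starRingEnd ℂ) (q z)) 0 ρ).re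
      = circleAverage (fun z => (p z * (starRingEnd ℂ) (q z)).re) 0 ρ := by
    have := Complex.reCLM.circleAverage_comp_comm (hint _ hpq)
    exact this.symm
  rw [h5]
  apply circleAverage_mono_on_of_le_circle
  · have h6 : ContinuousOn (fun z => (p z * (starRingEnd ℂ) (q z)).re) (sphere 0 ρ) :=
      Complex.continuous_re.comp_continuousOn hpq
    exact h6.circleIntegrable hρ0.le
  · intro z hz
    have hz1 : ‖z‖ = ρ := by
      rw [habs] at hz
      simpa using hz
    exact hneg z (by rw [hz1]; exact hρ1)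

lemma hasDeriv_log (y : ℂ) (s : ℝ) (h : 0 < (1 - (s : ℂ) * y).re) :
    HasDerivAt (fun t : ℝ => Real.log ‖1 - (t : ℂ) * y‖) ((-y / (1 - (s : ℂ) * y)).re) s := by
  have h1 : HasDerivAt (fun t : ℝ => 1 - (t : ℂ) * y) (-y) s := by
    have h2 : HasDerivAt (fun t : ℝ => (t : ℂ)) 1 s := Complex.ofRealCLM.hasDerivAt
    have h3 := (h2.mul_const y).const_sub 1
    simpa using h3
  have h4 : (1 - (s : ℂ) * y) ∈ Complex.slitPlane := Or.inl h
  have h5 := h1.clog_real h4
  have h6 := Complex.reCLM.hasFDerivAt.comp_hasDerivAt s h5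
  have h7 : (fun t : ℝ => Real.log ‖1 - (t : ℂ) * y‖)
      = (Complex.reCLM ∘ fun t : ℝ => Complex.log (1 - (t : ℂ) * y)) := by
    funext t
    simp [Complex.log_re]
  rw [h7]
  simpa using h6

theorem energy_nonneg {ι κ : Type} [Fintype ι] [Fintype κ] (α : ι → ℝ) (c : ι → ℂ)
    (hc : ∀ i, ‖c i‖ ≤ 1) (β : κ → ℝ) (e : κ → ℂ) (he : ∀ k, ‖e k‖ ≤ 1)
    (hce : ∀ i k, 1 - c i * (starRingEnd ℂ) (e k) ≠ 0)
    (hneg : ∀ x : ℂ, ‖x‖ < 1 →
      ((∑ i, (α i : ℂ) * ker (c i) x) * (starRingEnd ℂ) (∑ k, (β k : ℂ) * ker (e k) x)).re ≤ 0) :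
    0 ≤ ∑ k, β k * ∑ i, α i * Real.log ‖1 - c i * (starRingEnd ℂ) (e k)‖ := by
  set Φ : ℝ → ℝ := fun s => ∑ k, β k * ∑ i, α i *
    Real.log ‖1 - (s : ℂ) * (c i * (starRingEnd ℂ) (e k))‖ with hΦ
  have hy : ∀ i k, ‖c i * (starRingEnd ℂ) (e k)‖ ≤ 1 := by
    intro i k
    rw [norm_mul, RCLike.norm_conj]
    calc ‖c i‖ * ‖e k‖ ≤ 1 * 1 := by gcongr; exact hc i; exact he k
      _ = 1 := by norm_num
  have hre : ∀ i k (s : ℝ), 0 ≤ s → s < 1 →
      0 < (1 - (s : ℂ) * (c i * (starRingEnd ℂ) (e k))).re := by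
    intro i k s hs0 hs1
    have h1 : (1 - (s : ℂ) * (c i * (starRingEnd ℂ) (e k))).re
        = 1 - s * (c i * (starRingEnd ℂ) (e k)).re := by
      rw [Complex.sub_re, Complex.re_ofReal_mul, Complex.one_re]
    rw [h1]
    have h2 : (c i * (starRingEnd ℂ) (e k)).re ≤ 1 :=
      le_trans (Complex.re_le_norm _) (hy i k)
    nlinarith
  have hne : ∀ i k (s : ℝ), s ∈ Set.Icc (0:ℝ) 1 →
      1 - (s : ℂ) * (c i * (starRingEnd ℂ) (e k)) ≠ 0 := by
    intro i k s hs
    rcases lt_or_eq_of_le hs.2 with h | h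
    · intro h0
      have := hre i k s hs.1 h
      rw [h0] at this
      simp at this
    · rw [h]
      simpa using hce i k
  have hcont : ContinuousOn Φ (Set.Icc 0 1) := by
    rw [hΦ]
    apply continuousOn_finsetSum
    intro k _
    apply ContinuousOn.mul continuousOn_const
    apply continuousOn_finsetSum
    intro i _
    apply ContinuousOn.mul continuousOn_const
    apply ContinuousOn.log
    · have : Continuous fun s : ℝ => ‖1 - (s : ℂ) * (c i * (starRingEnd ℂ) (e k))‖ := by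
        fun_prop
      exact this.continuousOn
    · intro s hs
      exact norm_ne_zero_iff.2 (hne i k s hs)
  have hder : ∀ s ∈ Set.Ioo (0:ℝ) 1, HasDerivAt Φ (∑ k, β k * ∑ i, α i *
      (-(c i * (starRingEnd ℂ) (e k)) / (1 - (s : ℂ) * (c i * (starRingEnd ℂ) (e k)))).re) s := by
    intro s hs
    rw [hΦ]
    apply HasDerivAt.fun_sum
    intro k _
    apply HasDerivAt.const_mul
    apply HasDerivAt.fun_sum
    intro i _
    apply HasDerivAt.const_mul
    exact hasDeriv_log _ _ (hre i k s hs.1.le hs.2)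
  have hnn : ∀ s ∈ Set.Ioo (0:ℝ) 1, 0 ≤ ∑ k, β k * ∑ i, α i *
      (-(c i * (starRingEnd ℂ) (e k)) / (1 - (s : ℂ) * (c i * (starRingEnd ℂ) (e k)))).re := by
    intro s hs
    have h1 := pairing α c hc β e he hneg s hs.1 hs.2
    have h2 : (∑ k, (β k : ℂ) * ∑ i, (α i : ℂ) * ker (c i) (s * (starRingEnd ℂ) (e k))).re
        = -(s * ∑ k, β k * ∑ i, α i *
      (-(c i * (starRingEnd ℂ) (e k)) / (1 - (s : ℂ) * (c i * (starRingEnd ℂ) (e k)))).re) := by
      rw [Complex.re_sum, Finset.mul_sum, ← Finset.sum_neg_distrib]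
      refine Finset.sum_congr rfl fun k _ => ?_
      rw [Complex.re_ofReal_mul, Complex.re_sum, Finset.mul_sum, Finset.mul_sum, Finset.mul_sum,
        ← Finset.sum_neg_distrib]
      refine Finset.sum_congr rfl fun i _ => ?_
      rw [Complex.re_ofReal_mul]
      have h3 : ker (c i) (s * (starRingEnd ℂ) (e k))
          = -((s : ℂ) * (-(c i * (starRingEnd ℂ) (e k)) /
            (1 - (s : ℂ) * (c i * (starRingEnd ℂ) (e k))))) := by
        unfold ker
        have h4 := hne i k s ⟨hs.1.le, hs.2.le⟩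
        have h5 : 1 - c i * (s * (starRingEnd ℂ) (e k))
          = 1 - (s : ℂ) * (c i * (starRingEnd ℂ) (e k)) := by ring
        rw [h5]
        field_simp
      rw [h3, Complex.neg_re, Complex.re_ofReal_mul]
      ring
    rw [h2] at h1
    have h3 : 0 ≤ s * ∑ k, β k * ∑ i, α i *
      (-(c i * (starRingEnd ℂ) (e k)) / (1 - (s : ℂ) * (c i * (starRingEnd ℂ) (e k)))).re := by
      linarith
    exact nonneg_of_mul_nonneg_right h3 hs.1
  have hmono : MonotoneOn Φ (Set.Icc 0 1) := by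
    apply monotoneOn_of_deriv_nonneg (convex_Icc 0 1) hcont
    · intro s hs
      rw [interior_Icc] at hs
      exact (hder s hs).differentiableAt.differentiableWithinAt
    · intro s hs
      rw [interior_Icc] at hs
      rw [(hder s hs).deriv]
      exact hnn s hs
  have h0 : Φ 0 = 0 := by simp [hΦ]
  have h1 : Φ 1 = ∑ k, β k * ∑ i, α i * Real.log ‖1 - c i * (starRingEnd ℂ) (e k)‖ := by
    simp [hΦ]
  rw [← h1, ← h0]
  exact hmono (by simp) (by simp) zero_le_one

lemma exists_factor (R : ℂ[X]) (h0 : R.eval 0 = 1) :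
    ∃ (m : ℕ) (b : Fin m → ℂ), m = R.natDegree ∧ (∀ i, b i ≠ 0) ∧
      ∀ x, R.eval x = ∏ i, (1 - b i * x) := by
  obtain ⟨l, hl⟩ : ∃ l : List ℂ, (l : Multiset ℂ) = R.roots := Quot.exists_rep _
  have hR0 : R ≠ 0 := by
    intro h; rw [h] at h0; simp at h0
  have hs := IsAlgClosed.splits R
  have hroot : ∀ r ∈ l, R.eval r = 0 := by
    intro r hr
    have : r ∈ R.roots := by rw [← hl]; exact hr
    exact (Polynomial.mem_roots hR0).1 this
  have hr0 : ∀ r ∈ l, r ≠ 0 := by
    intro r hr h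
    have := hroot r hr
    rw [h, h0] at this
    exact one_ne_zero this
  refine ⟨l.length, fun i => (l.get i)⁻¹, ?_, ?_, ?_⟩
  · rw [hs.natDegree_eq_card_roots, ← hl]; rfl
  · intro i
    exact inv_ne_zero (hr0 _ (List.get_mem l i))
  · have hprod := hs.eq_prod_roots
    rw [← hl] at hprod
    have hev : ∀ x, R.eval x = R.leadingCoeff * (l.map fun r => x - r).prod := by
      intro x
      conv_lhs => rw [hprod]
      simp [Polynomial.eval_mul, Polynomial.eval_list_prod, List.map_map, Function.comp_def]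
    have h1 : R.leadingCoeff * (l.map fun r => 0 - r).prod = 1 := by rw [← hev 0, h0]
    intro x
    have h2 : (∏ i : Fin l.length, (1 - (l.get i)⁻¹ * x)) = (l.map fun r => 1 - r⁻¹ * x).prod := by
      rw [← List.prod_ofFn]
      congr 1
      have : l.map (fun r => 1 - r⁻¹ * x) = (List.ofFn l.get).map (fun r => 1 - r⁻¹ * x) := by
        rw [List.ofFn_get]
      rw [this, List.map_ofFn]
      rfl
    rw [h2, hev x]
    have h3 : (l.map fun r => x - r).prod
        = (l.map fun r => 0 - r).prod * (l.map fun r => 1 - r⁻¹ * x).prod := by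
      rw [← List.prod_map_mul]
      congr 1
      apply List.map_congr_left
      intro r hr
      have := hr0 r hr
      field_simp
      ring
    rw [h3, ← mul_assoc, h1, one_mul]

lemma factor_root {m : ℕ} {b : Fin m → ℂ} {R : ℂ[X]} (hb : ∀ i, b i ≠ 0)
    (h : ∀ x, R.eval x = ∏ i, (1 - b i * x)) (i : Fin m) : R.eval (b i)⁻¹ = 0 := by
  rw [h]
  apply Finset.prod_eq_zero (mem_univ i)
  rw [mul_inv_cancel₀ (hb i), sub_self]

/-- product form -/
noncomputable def PP {ι : Type} [Fintype ι] (a : ι → ℂ) : ℂ[X] := ∏ i, (1 - C (a i) * X)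

/-- weighted sum of the co-factors -/
noncomputable def DD {ι : Type} [Fintype ι] [DecidableEq ι] (a : ι → ℂ) (w : ι → ℝ) : ℂ[X] :=
  ∑ j, C (w j : ℂ) * ∏ i ∈ univ.erase j, (1 - C (a i) * X)

section
variable {ι : Type} [Fintype ι] [DecidableEq ι]

lemma PP_eval (a : ι → ℂ) (x : ℂ) : (PP a).eval x = ∏ i, (1 - a i * x) := by
  simp [PP, Polynomial.eval_prod]

lemma DD_eval (a : ι → ℂ) (w : ι → ℝ) (x : ℂ) :
    (DD a w).eval x = ∑ j, (w j : ℂ) * ∏ i ∈ univ.erase j, (1 - a i * x) := by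
  simp [DD, Polynomial.eval_finsetSum, Polynomial.eval_prod]

lemma PP_ne {a : ι → ℂ} {x : ℂ} (hx : ∀ i, 1 - a i * x ≠ 0) : (PP a).eval x ≠ 0 := by
  rw [PP_eval]
  exact Finset.prod_ne_zero_iff.2 fun i _ => hx i

lemma DD_eval_ne (a : ι → ℂ) (w : ι → ℝ) (x : ℂ) (hx : ∀ i, 1 - a i * x ≠ 0) :
    (DD a w).eval x = (PP a).eval x * ∑ j, (w j : ℂ) / (1 - a j * x) := by
  rw [DD_eval, PP_eval, Finset.mul_sum]
  refine Finset.sum_congr rfl fun j _ => ?_
  rw [← Finset.mul_prod_erase univ _ (mem_univ j)]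
  generalize (∏ i ∈ univ.erase j, (1 - a i * x)) = T
  have := hx j
  generalize 1 - a j * x = u at *
  field_simp

lemma DD_eval_zero (a : ι → ℂ) (w : ι → ℝ) (x : ℂ) (j : ι) (hx : 1 - a j * x = 0) :
    (DD a w).eval x = (w j : ℂ) * ∏ i ∈ univ.erase j, (1 - a i * x) := by
  rw [DD_eval]
  rw [Finset.sum_eq_single j]
  · intro k _ hk
    rw [Finset.prod_eq_zero (Finset.mem_erase.2 ⟨hk.symm, mem_univ j⟩) hx, mul_zero]
  · intro h; exact absurd (mem_univ j) h

lemma DD_at_zero (a : ι → ℂ) (w : ι → ℝ) : (DD a w).eval 0 = ∑ j, (w j : ℂ) := by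
  rw [DD_eval]
  simp

lemma PP_at_zero (a : ι → ℂ) : (PP a).eval 0 = 1 := by
  rw [PP_eval]
  simp

/-- sum of kernels against `DD` -/
lemma sum_ker (a : ι → ℂ) (w : ι → ℝ) (x : ℂ) (hx : ∀ i, 1 - a i * x ≠ 0) (hsum : ∑ j, w j = 1) :
    (PP a).eval x * ∑ j, (w j : ℂ) * ker (a j) x = (DD a w).eval x - (PP a).eval x := by
  rw [DD_eval_ne a w x hx]
  have h1 : ∑ j, (w j : ℂ) * ker (a j) x = ∑ j, (w j : ℂ) / (1 - a j * x) - 1 := by
    have h2 : ∑ j, (w j : ℂ) = 1 := by
      rw [← Complex.ofReal_sum, hsum]; simp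
    have h3 : ∑ j, (w j : ℂ) * ker (a j) x = ∑ j, ((w j : ℂ) / (1 - a j * x) - (w j : ℂ)) := by
      refine Finset.sum_congr rfl fun j _ => ?_
      rw [ker_eq (hx j)]
      ring
    rw [h3, Finset.sum_sub_distrib, h2]
  rw [h1]
  ring

lemma deriv_PP (a : ι → ℂ) (x : ℂ) (hx : ∀ i, 1 - a i * x ≠ 0) :
    x * (derivative (PP a)).eval x = -((PP a).eval x * ∑ j, ker (a j) x) := by
  rw [PP, derivative_prod_finset, Polynomial.eval_finsetSum, Finset.mul_sum, Finset.mul_sum,
    ← Finset.sum_neg_distrib]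
  refine Finset.sum_congr rfl fun j _ => ?_
  rw [← Finset.mul_prod_erase univ _ (mem_univ j)]
  generalize (∏ i ∈ univ.erase j, (1 - C (a i) * X)) = T
  have := hx j
  simp only [ker, Polynomial.eval_mul, Polynomial.eval_sub, Polynomial.eval_one,
    Polynomial.eval_C, Polynomial.eval_X, derivative_sub, derivative_one, derivative_mul,
    derivative_C, derivative_X]
  simp only [zero_mul, zero_add, mul_one, Polynomial.eval_zero, Polynomial.eval_C]
  have h5 : (1 - a j * x) * eval x T * (a j * x / (1 - a j * x)) = eval x T * (a j * x) := by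
    generalize 1 - a j * x = u at *
    field_simp
  rw [h5]
  ring

lemma re_aux (y : ℂ) (h : 1 - y ≠ 0) : (2 / (1 - y) - 1).re = (1 - ‖y‖ ^ 2) / ‖1 - y‖ ^ 2 := by
  have h1 : Complex.normSq (1 - y) ≠ 0 := fun h0 => h (Complex.normSq_eq_zero.1 h0)
  rw [← Complex.normSq_eq_norm_sq, ← Complex.normSq_eq_norm_sq, Complex.sub_re, Complex.div_re]
  simp only [Complex.re_ofNat, Complex.im_ofNat, zero_mul, zero_div, add_zero, Complex.one_re]
  rw [eq_div_iff h1, sub_mul, div_mul_cancel₀ _ h1]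
  simp only [Complex.normSq_apply, Complex.sub_re, Complex.sub_im, Complex.one_re, Complex.one_im]
  ring

/-- the Herglotz-type function -/
noncomputable def hh (a : ι → ℂ) (w : ι → ℝ) (x : ℂ) : ℂ := 2 * ∑ j, (w j : ℂ) / (1 - a j * x) - 1

noncomputable def MM (a : ι → ℂ) (w : ι → ℝ) (x : ℂ) : ℝ := ∑ j, w j / ‖1 - a j * x‖ ^ 2

lemma MM_pos [Nonempty ι] (a : ι → ℂ) (w : ι → ℝ) (hw : ∀ i, 0 < w i) (x : ℂ)
    (hx : ∀ i, 1 - a i * x ≠ 0) : 0 < MM a w x := by
  unfold MM
  apply Finset.sum_pos _ Finset.univ_nonempty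
  intro j _
  exact div_pos (hw j) (by have := norm_pos_iff.2 (hx j); positivity)

lemma hh_re (a : ι → ℂ) (ha : ∀ i, ‖a i‖ = 1) (w : ι → ℝ) (hsum : ∑ j, w j = 1) (x : ℂ)
    (hx : ∀ i, 1 - a i * x ≠ 0) : (hh a w x).re = (1 - ‖x‖ ^ 2) * MM a w x := by
  have h2 : ∑ j, (w j : ℂ) = 1 := by
    rw [← Complex.ofReal_sum, hsum]; simp
  have h1 : hh a w x = ∑ j, (w j : ℂ) * (2 / (1 - a j * x) - 1) := by
    have h3 : ∑ j, (w j : ℂ) * (2 / (1 - a j * x) - 1)
        = ∑ j, (2 * ((w j : ℂ) / (1 - a j * x)) - (w j : ℂ)) := by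
      refine Finset.sum_congr rfl fun j _ => ?_
      ring
    rw [h3, Finset.sum_sub_distrib, h2, ← Finset.mul_sum]
    rfl
  rw [h1, Complex.re_sum, MM, Finset.mul_sum]
  refine Finset.sum_congr rfl fun j _ => ?_
  rw [Complex.re_ofReal_mul, re_aux _ (hx j), norm_mul, ha j, one_mul]
  ring

lemma QQ_eq (a : ι → ℂ) (w : ι → ℝ) (x : ℂ) (hx : ∀ i, 1 - a i * x ≠ 0) :
    2 * (DD a w).eval x - (PP a).eval x = (PP a).eval x * hh a w x := by
  rw [DD_eval_ne a w x hx, hh]
  ring

lemma DD_ne_of_zero (a : ι → ℂ) (hinj : Function.Injective a) (w : ι → ℝ)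
    (hw : ∀ i, 0 < w i) (x : ℂ) (j : ι) (hx : 1 - a j * x = 0) : (DD a w).eval x ≠ 0 := by
  rw [DD_eval_zero a w x j hx]
  apply mul_ne_zero
  · exact_mod_cast (hw j).ne'
  · apply Finset.prod_ne_zero_iff.2
    intro i hi h0
    apply Finset.ne_of_mem_erase hi
    apply hinj
    have hx0 : x ≠ 0 := by
      intro h; rw [h] at hx; simp at hx
    apply mul_right_cancel₀ hx0
    rw [← sub_eq_zero.1 h0, ← sub_eq_zero.1 hx]

lemma one_sub_ne' (a : ι → ℂ) (ha : ∀ i, ‖a i‖ = 1) (x : ℂ) (hx : ‖x‖ ≠ 1) (i : ι) :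
    1 - a i * x ≠ 0 := by
  intro h0
  apply hx
  have h1 := congrArg norm (sub_eq_zero.1 h0)
  rw [norm_mul, ha i, one_mul, norm_one] at h1
  exact h1.symm

/-- zeros of `DD` are outside of the closed disc -/
lemma DD_root [Nonempty ι] (a : ι → ℂ) (ha : ∀ i, ‖a i‖ = 1) (hinj : Function.Injective a)
    (w : ι → ℝ) (hw : ∀ i, 0 < w i) (hsum : ∑ j, w j = 1) (x : ℂ) (h0 : (DD a w).eval x = 0) :
    1 < ‖x‖ ∧ ∑ j, (w j : ℂ) / (1 - a j * x) = 0 := by
  have hx : ∀ i, 1 - a i * x ≠ 0 := fun i hi => DD_ne_of_zero a hinj w hw x i hi h0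
  have h1 := DD_eval_ne a w x hx
  rw [h0] at h1
  have h2 : ∑ j, (w j : ℂ) / (1 - a j * x) = 0 := by
    rcases mul_eq_zero.1 h1.symm with h | h
    · exact absurd h (PP_ne hx)
    · exact h
  refine ⟨?_, h2⟩
  have h3 := hh_re a ha w hsum x hx
  have h4 : hh a w x = -1 := by rw [hh, h2]; ring
  rw [h4] at h3
  have h5 := MM_pos a w hw x hx
  by_contra hcon
  push Not at hcon
  have h6 : ‖x‖ ^ 2 ≤ 1 := by nlinarith [norm_nonneg x]
  have h7 : (-1 : ℂ).re = -1 := by simp
  rw [h7] at h3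
  nlinarith

/-- zeros of `2 DD - PP` lie on the unit circle -/
lemma QQ_root [Nonempty ι] (a : ι → ℂ) (ha : ∀ i, ‖a i‖ = 1) (hinj : Function.Injective a)
    (w : ι → ℝ) (hw : ∀ i, 0 < w i) (hsum : ∑ j, w j = 1) (x : ℂ)
    (h0 : 2 * (DD a w).eval x - (PP a).eval x = 0) :
    ‖x‖ = 1 ∧ (∀ i, 1 - a i * x ≠ 0) ∧ hh a w x = 0 := by
  have hx : ∀ i, 1 - a i * x ≠ 0 := by
    intro i hi
    have h1 : (PP a).eval x = 0 := by
      rw [PP_eval]; exact Finset.prod_eq_zero (mem_univ i) hi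
    rw [h1, sub_zero] at h0
    exact DD_ne_of_zero a hinj w hw x i hi (by simpa using h0)
  have h1 := QQ_eq a w x hx
  rw [h0] at h1
  have h2 : hh a w x = 0 := by
    rcases mul_eq_zero.1 h1.symm with h | h
    · exact absurd h (PP_ne hx)
    · exact h
  refine ⟨?_, hx, h2⟩
  have h3 := hh_re a ha w hsum x hx
  rw [h2, Complex.zero_re] at h3
  have h5 := MM_pos a w hw x hx
  have h6 : 1 - ‖x‖ ^ 2 = 0 := by
    rcases mul_eq_zero.1 h3.symm with h | h
    · exact h
    · exact absurd h h5.ne'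
  have h7 : ‖x‖ ^ 2 = 1 := by linarith
  have h8 := norm_nonneg x
  nlinarith

lemma PP_degree (a : ι → ℂ) (ha : ∀ i, a i ≠ 0) : (PP a).degree = (Fintype.card ι : ℕ) := by
  rw [PP, Polynomial.degree_prod]
  have : ∀ i, (1 - C (a i) * X : ℂ[X]).degree = 1 := by
    intro i
    have h1 : (1 - C (a i) * X : ℂ[X]) = C (-a i) * X + C 1 := by
      simp only [map_neg, map_one]; ring
    rw [h1]
    exact Polynomial.degree_linear (neg_ne_zero.2 (ha i))
  simp [this]

lemma DD_degree [Nonempty ι] (a : ι → ℂ) (w : ι → ℝ) : (DD a w).degree < (Fintype.card ι : ℕ) := by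
  rw [← Polynomial.mem_degreeLT]
  unfold DD
  apply Submodule.sum_mem
  intro j _
  rw [Polynomial.mem_degreeLT]
  have h1 : ∀ i, (1 - C (a i) * X : ℂ[X]).natDegree ≤ 1 := by
    intro i
    have h1 : (1 - C (a i) * X : ℂ[X]) = C (-a i) * X + C 1 := by
      simp only [map_neg, map_one]; ring
    rw [h1]
    exact Polynomial.natDegree_linear_le
  have h2 : (C (w j : ℂ) * ∏ i ∈ univ.erase j, (1 - C (a i) * X)).natDegree < Fintype.card ι := by
    calc (C (w j : ℂ) * ∏ i ∈ univ.erase j, (1 - C (a i) * X)).natDegree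
        ≤ (∏ i ∈ univ.erase j, (1 - C (a i) * X)).natDegree := Polynomial.natDegree_C_mul_le _ _
      _ ≤ ∑ i ∈ univ.erase j, (1 - C (a i) * X : ℂ[X]).natDegree := Polynomial.natDegree_prod_le _ _
      _ ≤ ∑ i ∈ univ.erase j, 1 := Finset.sum_le_sum fun i _ => h1 i
      _ = Fintype.card ι - 1 := by simp [Finset.card_erase_of_mem]
      _ < Fintype.card ι := by
        have := Fintype.card_pos (α := ι)
        omega
  exact lt_of_le_of_lt Polynomial.degree_le_natDegree (by exact_mod_cast h2)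

lemma hh_deriv (a : ι → ℂ) (w : ι → ℝ) (x : ℂ) (hx : ∀ i, 1 - a i * x ≠ 0) :
    HasDerivAt (hh a w) (2 * ∑ j, (w j : ℂ) * (a j / (1 - a j * x) ^ 2)) x := by
  unfold hh
  apply HasDerivAt.sub_const
  apply HasDerivAt.const_mul
  apply HasDerivAt.fun_sum
  intro j _
  have h1 : HasDerivAt (fun y : ℂ => 1 - a j * y) (-a j) x := by
    have h2 := ((hasDerivAt_id x).const_mul (a j)).const_sub 1
    simpa using h2
  have h3 := (h1.inv (hx j)).const_mul (w j : ℂ)
  have h4 : (fun y : ℂ => (w j : ℂ) / (1 - a j * y)) = fun y => (w j : ℂ) * (1 - a j * y)⁻¹ := by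
    funext y
    rw [div_eq_mul_inv]
  rw [h4]
  simpa using h3

lemma key_aux (y : ℂ) (hy : ‖y‖ = 1) (h : 1 - y ≠ 0) :
    y / (1 - y) ^ 2 = -((1 / ‖1 - y‖ ^ 2 : ℝ) : ℂ) := by
  have h0 : y ≠ 0 := by intro h; rw [h] at hy; simp at hy
  have h1 : y * (starRingEnd ℂ) y = 1 := by
    rw [Complex.mul_conj, Complex.normSq_eq_norm_sq, hy]; simp
  have h2 : ((‖1 - y‖ ^ 2 : ℝ) : ℂ) = (1 - y) * (1 - (starRingEnd ℂ) y) := by
    have := Complex.mul_conj (1 - y)
    rw [Complex.normSq_eq_norm_sq] at this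
    rw [← this]
    simp
  have h3 : (1 - y) * (1 - (starRingEnd ℂ) y) * y = -(1 - y) ^ 2 := by
    have : (1 - y) * (1 - (starRingEnd ℂ) y) * y = (1 - y) * (y - y * (starRingEnd ℂ) y) := by ring
    rw [this, h1]; ring
  have h4 : ((‖1 - y‖ ^ 2 : ℝ) : ℂ) ≠ 0 := by
    have := norm_pos_iff.2 h
    exact_mod_cast (by positivity : (‖1 - y‖ ^ 2 : ℝ) ≠ 0)
  rw [Complex.ofReal_div, Complex.ofReal_one]
  rw [div_eq_iff (pow_ne_zero 2 h)]
  rw [h2] at h4 ⊢
  have h5 : (1 - (starRingEnd ℂ) y) ≠ 0 := right_ne_zero_of_mul h4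
  field_simp
  linear_combination h3 - y * h1

lemma weight_formula {n : ℕ} (a : ι → ℂ) (ha : ∀ i, ‖a i‖ = 1) (w : ι → ℝ)
    (f : Fin n → ℂ) (hf : ∀ k, ‖f k‖ = 1)
    (hQ : PP f = 2 * DD a w - PP a) (k : Fin n)
    (hx : ∀ i, 1 - a i * (starRingEnd ℂ) (f k) ≠ 0) (hh0 : hh a w ((starRingEnd ℂ) (f k)) = 0) :
    ∏ l ∈ univ.erase k, (1 - f l * (starRingEnd ℂ) (f k))
      = ((4 * MM a w ((starRingEnd ℂ) (f k)) : ℝ) : ℂ) * (DD a w).eval ((starRingEnd ℂ) (f k)) := by
  set ζ := (starRingEnd ℂ) (f k) with hζ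
  have hfz : f k * ζ = 1 := by
    rw [hζ, Complex.mul_conj, Complex.normSq_eq_norm_sq, hf k]; simp
  have hzn : ‖ζ‖ = 1 := by rw [hζ, RCLike.norm_conj, hf k]
  -- derivative from the product
  have h1 : (derivative (PP f)).eval ζ = (∏ l ∈ univ.erase k, (1 - f l * ζ)) * (-f k) := by
    rw [PP, derivative_prod_finset, Polynomial.eval_finsetSum, Finset.sum_eq_single k]
    · simp [Polynomial.eval_prod]
    · intro j _ hj
      rw [Polynomial.eval_mul, Polynomial.eval_prod,
        Finset.prod_eq_zero (Finset.mem_erase.2 ⟨hj.symm, mem_univ k⟩), zero_mul]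
      simp [hfz]
    · intro h; exact absurd (mem_univ k) h
  -- derivative from the other representation
  have h2 : HasDerivAt (fun x => (PP a).eval x * hh a w x)
      ((derivative (PP a)).eval ζ * hh a w ζ +
        (PP a).eval ζ * (2 * ∑ j, (w j : ℂ) * (a j / (1 - a j * ζ) ^ 2))) ζ :=
    ((PP a).hasDerivAt ζ).mul (hh_deriv a w ζ hx)
  have h3 : (fun x => (PP f).eval x) =ᶠ[nhds ζ] (fun x => (PP a).eval x * hh a w x) := by
    have h4 : ∀ᶠ x in nhds ζ, ∀ i, 1 - a i * x ≠ 0 := by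
      rw [Filter.eventually_all]
      intro i
      have hc : ContinuousAt (fun x : ℂ => 1 - a i * x) ζ := by fun_prop
      exact hc.eventually_ne (hx i)
    filter_upwards [h4] with x hx'
    rw [hQ, ← QQ_eq a w x hx']
    simp
  have h5 := ((PP f).hasDerivAt ζ).unique (h2.congr_of_eventuallyEq h3)
  rw [h1, hh0, mul_zero, zero_add] at h5
  have h6 : ζ * ∑ j, (w j : ℂ) * (a j / (1 - a j * ζ) ^ 2) = -((MM a w ζ : ℝ) : ℂ) := by
    rw [MM, Finset.mul_sum, Complex.ofReal_sum, ← Finset.sum_neg_distrib]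
    refine Finset.sum_congr rfl fun j _ => ?_
    have h7 := key_aux (a j * ζ) (by rw [norm_mul, ha j, hzn, one_mul]) (hx j)
    have h8 : ζ * ((w j : ℂ) * (a j / (1 - a j * ζ) ^ 2))
        = (w j : ℂ) * (a j * ζ / (1 - a j * ζ) ^ 2) := by ring
    rw [h8, h7]
    push_cast
    ring
  have h9 : (PP a).eval ζ = 2 * (DD a w).eval ζ := by
    have h10 := QQ_eq a w ζ hx
    rw [hh0, mul_zero] at h10
    linear_combination -h10
  rw [h9] at h5
  have h11 : (∏ l ∈ univ.erase k, (1 - f l * ζ)) * (f k * ζ)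
      = -(2 * (DD a w).eval ζ * (2 * (ζ * ∑ j, (w j : ℂ) * (a j / (1 - a j * ζ) ^ 2)))) := by
    linear_combination (-ζ) * h5
  rw [hfz, mul_one, h6] at h11
  rw [h11]
  push_cast
  ring

theorem dual [Nonempty ι] (a : ι → ℂ) (ha : ∀ i, ‖a i‖ = 1) (hinj : Function.Injective a)
    (w : ι → ℝ) (hw : ∀ i, 0 < w i) (hsum : ∑ j, w j = 1) :
    ∃ (n : ℕ) (f : Fin n → ℂ) (c : Fin n → ℝ), n = Fintype.card ι ∧ (∀ k, ‖f k‖ = 1) ∧
      (∀ k, 0 < c k) ∧ ∑ k, c k = 1 ∧ PP f = 2 * DD a w - PP a ∧ DD f c = DD a w ∧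
      (∀ k i, 1 - a i * (starRingEnd ℂ) (f k) ≠ 0) := by
  set R : ℂ[X] := 2 * DD a w - PP a with hR
  have hD0 : (DD a w).eval 0 = 1 := by
    rw [DD_at_zero, ← Complex.ofReal_sum, hsum]; simp
  have hR0 : R.eval 0 = 1 := by
    rw [hR, Polynomial.eval_sub, Polynomial.eval_mul, hD0, PP_at_zero]
    simp; norm_num
  obtain ⟨m, f, hm, hf0, hf⟩ := exists_factor R hR0
  have hPf : PP f = R := by
    apply Polynomial.funext
    intro x
    rw [PP_eval, hf x]
  have ha0 : ∀ i, a i ≠ 0 := by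
    intro i h
    have := ha i
    rw [h] at this
    simp at this
  have hdeg : R.degree = (Fintype.card ι : ℕ) := by
    rw [hR, ← PP_degree a ha0]
    apply Polynomial.degree_sub_eq_right_of_degree_lt
    rw [PP_degree a ha0]
    have h2 : (2 : ℂ[X]) = C 2 := (map_ofNat C 2).symm
    rw [h2, Polynomial.degree_C_mul (by norm_num : (2:ℂ) ≠ 0)]
    exact DD_degree a w
  have hmcard : m = Fintype.card ι := by
    rw [hm]; exact Polynomial.natDegree_eq_of_degree_eq_some hdeg
  have hroot : ∀ k, R.eval (f k)⁻¹ = 0 := fun k => factor_root hf0 hf k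
  have hroot' : ∀ k, ‖(f k)⁻¹‖ = 1 ∧ (∀ i, 1 - a i * (f k)⁻¹ ≠ 0) ∧ hh a w (f k)⁻¹ = 0 := by
    intro k
    apply QQ_root a ha hinj w hw hsum
    have := hroot k
    rw [hR, Polynomial.eval_sub, Polynomial.eval_mul] at this
    simpa using this
  have hfn : ∀ k, ‖f k‖ = 1 := by
    intro k
    have := (hroot' k).1
    rw [norm_inv] at this
    exact inv_eq_one.1 this
  have hconj : ∀ k, (f k)⁻¹ = (starRingEnd ℂ) (f k) := by
    intro k
    have h1 : f k * (starRingEnd ℂ) (f k) = 1 := by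
      rw [Complex.mul_conj, Complex.normSq_eq_norm_sq, hfn k]; simp
    exact inv_eq_of_mul_eq_one_right h1
  have hx : ∀ k i, 1 - a i * (starRingEnd ℂ) (f k) ≠ 0 := by
    intro k i
    rw [← hconj]
    exact (hroot' k).2.1 i
  have hh0 : ∀ k, hh a w ((starRingEnd ℂ) (f k)) = 0 := by
    intro k
    rw [← hconj]
    exact (hroot' k).2.2
  have hwf := fun k => weight_formula a ha w f hfn hPf k (hx k) (hh0 k)
  have hM : ∀ k, 0 < MM a w ((starRingEnd ℂ) (f k)) := fun k => MM_pos a w hw _ (hx k)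
  have hDne : ∀ k, (DD a w).eval ((starRingEnd ℂ) (f k)) ≠ 0 := by
    intro k h
    have := (DD_root a ha hinj w hw hsum _ h).1
    rw [RCLike.norm_conj, hfn k] at this
    exact lt_irrefl _ this
  have hprodne : ∀ k, ∏ l ∈ univ.erase k, (1 - f l * (starRingEnd ℂ) (f k)) ≠ 0 := by
    intro k
    rw [hwf k]
    apply mul_ne_zero _ (hDne k)
    have := hM k
    exact_mod_cast (by positivity : (4 * MM a w ((starRingEnd ℂ) (f k)) : ℝ) ≠ 0)
  have hone : ∀ k, 1 - f k * (starRingEnd ℂ) (f k) = 0 := by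
    intro k
    rw [← hconj, mul_inv_cancel₀ (hf0 k), sub_self]
  have hfinj : Function.Injective f := by
    intro k l hkl
    by_contra hne
    apply hprodne k
    apply Finset.prod_eq_zero (Finset.mem_erase.2 ⟨Ne.symm hne, mem_univ l⟩)
    rw [← hkl]; exact hone k
  have hpos : 0 < m := by rw [hmcard]; exact Fintype.card_pos
  have : Nonempty (Fin m) := ⟨⟨0, hpos⟩⟩
  set c : Fin m → ℝ := fun k => 1 / (4 * MM a w ((starRingEnd ℂ) (f k))) with hc
  have hDD : DD f c = DD a w := by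
    apply Polynomial.eq_of_degrees_lt_of_eval_index_eq (s := univ)
      (v := fun k => (starRingEnd ℂ) (f k))
    · intro k _ l _ hkl
      apply hfinj
      exact star_injective hkl
    · have := DD_degree f c
      simpa using this
    · have := DD_degree a w
      rw [← hmcard] at this
      simpa using this
    · intro k _
      rw [DD_eval_zero f c _ k (hone k), hwf k, ← mul_assoc]
      have h1 : (c k : ℂ) * ((4 * MM a w ((starRingEnd ℂ) (f k)) : ℝ) : ℂ) = 1 := by
        rw [← Complex.ofReal_mul]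
        have : c k * (4 * MM a w ((starRingEnd ℂ) (f k))) = 1 := by
          rw [hc]
          have := hM k
          field_simp
        rw [this]; simp
      rw [h1, one_mul]
  refine ⟨m, f, c, hmcard, hfn, ?_, ?_, hPf, hDD, hx⟩
  · intro k
    rw [hc]
    have := hM k
    positivity
  · have h1 := DD_at_zero f c
    rw [hDD, hD0] at h1
    rw [← Complex.ofReal_sum] at h1
    exact_mod_cast h1.symm

lemma log_PP (b : ι → ℂ) (x : ℂ) (h : ∀ i, 1 - b i * x ≠ 0) :
    Real.log ‖(PP b).eval x‖ = ∑ i, Real.log ‖1 - b i * x‖ := by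
  rw [PP_eval, norm_prod, Real.log_prod]
  intro i _
  exact norm_ne_zero_iff.2 (h i)

theorem core [Nonempty ι] (a : ι → ℂ) (ha : ∀ i, ‖a i‖ = 1) (hinj : Function.Injective a)
    (w : ι → ℝ) (hw : ∀ i, 0 < w i) (hsum : ∑ j, w j = 1) :
    ∃ ζ : ℂ, ‖ζ‖ = 1 ∧ (∀ i, 1 - a i * ζ ≠ 0) ∧
      Real.log 2 / Fintype.card ι ≤ ∑ j, w j * Real.log ‖1 - a j * ζ‖ := by
  obtain ⟨n, f, c, hn, hf, hc, hcs, hQ, hD, hx⟩ := dual a ha hinj w hw hsum
  have hD0 : (DD a w).eval 0 = 1 := by
    rw [DD_at_zero, ← Complex.ofReal_sum, hsum]; simp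
  obtain ⟨m, b, hm, hb0, hb⟩ := exists_factor (DD a w) hD0
  have hPb : PP b = DD a w := by
    apply Polynomial.funext
    intro x
    rw [PP_eval, hb x]
  have hbr := fun i => DD_root a ha hinj w hw hsum _ (factor_root hb0 hb i)
  have hbn : ∀ i, ‖b i‖ < 1 := by
    intro i
    have h1 := (hbr i).1
    rw [norm_inv] at h1
    have h2 : 0 < ‖b i‖ := norm_pos_iff.2 (hb0 i)
    by_contra h3
    push Not at h3
    have := inv_le_one_of_one_le₀ h3
    linarith
  have hNpos : (0 : ℝ) < (Fintype.card ι : ℝ) := by exact_mod_cast Fintype.card_pos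
  set N : ℝ := (Fintype.card ι : ℝ) with hN
  have hnN : (n : ℝ) = N := by rw [hN, hn]
  -- nonvanishing facts
  have hlt1 : ∀ u v : ℂ, ‖u‖ ≤ 1 → ‖v‖ < 1 → 1 - u * v ≠ 0 :=
    fun u v hu hv => one_sub_ne (norm_mul_lt hu hv)
  have hlt2 : ∀ u v : ℂ, ‖u‖ < 1 → ‖v‖ ≤ 1 → 1 - u * v ≠ 0 := by
    intro u v hu hv
    rw [mul_comm]
    exact one_sub_ne (norm_mul_lt hv hu)
  have hcb : ∀ i, ‖(starRingEnd ℂ) (b i)‖ < 1 := by
    intro i; rw [RCLike.norm_conj]; exact hbn i
  have hcf : ∀ k, ‖(starRingEnd ℂ) (f k)‖ = 1 := by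
    intro k; rw [RCLike.norm_conj]; exact hf k
  have hca : ∀ k, ‖(starRingEnd ℂ) (a k)‖ = 1 := by
    intro k; rw [RCLike.norm_conj]; exact ha k
  -- the energy inequality
  have hE := energy_nonneg (ι := ι ⊕ Fin m) (κ := Fin n ⊕ Fin m)
    (Sum.elim (fun j => w j - 1 / N) (fun _ => 1 / N)) (Sum.elim a b)
    (by
      rintro (i | i)
      · exact (ha i).le
      · exact (hbn i).le)
    (Sum.elim (fun k => c k - 1 / N) (fun _ => 1 / N)) (Sum.elim f b)
    (by
      rintro (i | i)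
      · exact (hf i).le
      · exact (hbn i).le)
    (by
      rintro (i | i) (k | k)
      · exact hx k i
      · exact hlt1 _ _ (ha i).le (hcb k)
      · exact hlt2 _ _ (hbn i) (hcf k).le
      · exact hlt2 _ _ (hbn i) (hcb k).le)
    (by
      intro x hx1
      have hax : ∀ i, 1 - a i * x ≠ 0 := fun i => hlt1 _ _ (ha i).le hx1
      have hfx : ∀ i, 1 - f i * x ≠ 0 := fun i => hlt1 _ _ (hf i).le hx1
      have hbx : ∀ i, 1 - b i * x ≠ 0 := fun i => hlt1 _ _ (hbn i).le hx1
      have hP0 := PP_ne hax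
      have hQ0 := PP_ne hfx
      have hsP := sum_ker a w x hax hsum
      have hsQ := sum_ker f c x hfx hcs
      rw [hD] at hsQ
      have hdP := deriv_PP a x hax
      have hdQ := deriv_PP f x hfx
      have hdD := deriv_PP b x hbx
      rw [hPb] at hdD
      have hPQ : (PP f).eval x = 2 * (DD a w).eval x - (PP a).eval x := by rw [hQ]; simp
      have hPQ' : (derivative (PP f)).eval x
          = 2 * (derivative (DD a w)).eval x - (derivative (PP a)).eval x := by
        rw [hQ]; simp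
      have hhQ : (PP f).eval x = (PP a).eval x * hh a w x := by
        rw [hPQ]; exact QQ_eq a w x hax
      have hre : 0 ≤ (hh a w x).re := by
        rw [hh_re a ha w hsum x hax]
        have := MM_pos a w hw x hax
        have h2 : 0 ≤ 1 - ‖x‖ ^ 2 := by nlinarith [norm_nonneg x]
        positivity
      have hp : ∑ i, ((Sum.elim (fun j => w j - 1 / N) (fun _ : Fin m => 1 / N) i : ℝ) : ℂ) *
          ker (Sum.elim a b i) x = ∑ j, (w j : ℂ) * ker (a j) x
          - (1 / N : ℂ) * ∑ j, ker (a j) x + (1 / N : ℂ) * ∑ i, ker (b i) x := by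
        rw [Fintype.sum_sum_type]
        simp only [Sum.elim_inl, Sum.elim_inr]
        rw [Finset.mul_sum, Finset.mul_sum, ← Finset.sum_sub_distrib]
        congr 1
        · refine Finset.sum_congr rfl fun j _ => ?_
          push_cast; ring
        · refine Finset.sum_congr rfl fun j _ => ?_
          push_cast; ring
      have hq : ∑ i, ((Sum.elim (fun j => c j - 1 / N) (fun _ : Fin m => 1 / N) i : ℝ) : ℂ) *
          ker (Sum.elim f b i) x = ∑ j, (c j : ℂ) * ker (f j) x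
          - (1 / N : ℂ) * ∑ j, ker (f j) x + (1 / N : ℂ) * ∑ i, ker (b i) x := by
        rw [Fintype.sum_sum_type]
        simp only [Sum.elim_inl, Sum.elim_inr]
        rw [Finset.mul_sum, Finset.mul_sum, ← Finset.sum_sub_distrib]
        congr 1
        · refine Finset.sum_congr rfl fun j _ => ?_
          push_cast; ring
        · refine Finset.sum_congr rfl fun j _ => ?_
          push_cast; ring
      rw [hp, hq]
      set P := (PP a).eval x
      set Q := (PP f).eval x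
      set D := (DD a w).eval x
      set P' := (derivative (PP a)).eval x
      set Q' := (derivative (PP f)).eval x
      set D' := (derivative (DD a w)).eval x
      set s1 := ∑ j, (w j : ℂ) * ker (a j) x
      set s2 := ∑ j, ker (a j) x
      set s3 := ∑ i, ker (b i) x
      set s4 := ∑ j, (c j : ℂ) * ker (f j) x
      set s5 := ∑ j, ker (f j) x
      set H := hh a w x
      have hrel : P * s2 + Q * s5 = 2 * (D * s3) := by
        linear_combination hdP + hdQ - 2 * hdD - x * hPQ'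
      have hmain : P * (s1 - (1 / N : ℂ) * s2 + (1 / N : ℂ) * s3)
          + Q * (s4 - (1 / N : ℂ) * s5 + (1 / N : ℂ) * s3) = 0 := by
        linear_combination hsP + hsQ - (1 / N : ℂ) * hrel + (-1 + (1 / N : ℂ) * s3) * hPQ
      set p := s1 - (1 / N : ℂ) * s2 + (1 / N : ℂ) * s3
      set q := s4 - (1 / N : ℂ) * s5 + (1 / N : ℂ) * s3
      have hpq : p = -(H * q) := by
        apply mul_left_cancel₀ hP0
        rw [hhQ] at hmain
        linear_combination hmain
      rw [hpq]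
      have h3 : -(H * q) * (starRingEnd ℂ) q = ((-(Complex.normSq q) : ℝ) : ℂ) * H := by
        have := Complex.mul_conj q
        push_cast
        rw [← this]; ring
      rw [h3, Complex.re_ofReal_mul]
      have := Complex.normSq_nonneg q
      nlinarith [mul_nonneg this hre])
  -- potentials
  set u : ℂ → ℝ := fun x => ∑ j, w j * Real.log ‖1 - a j * x‖ with hu
  have hU : ∀ x : ℂ, (∀ i, 1 - a i * x ≠ 0) → (∀ i, 1 - b i * x ≠ 0) →
      ∑ i, Sum.elim (fun j => w j - 1 / N) (fun _ : Fin m => 1 / N) i *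
        Real.log ‖1 - Sum.elim a b i * x‖ = u x - (1 / N) * Real.log ‖(PP a).eval x‖
          + (1 / N) * Real.log ‖(DD a w).eval x‖ := by
    intro x hax hbx
    rw [Fintype.sum_sum_type, log_PP a x hax, ← hPb, log_PP b x hbx]
    simp only [Sum.elim_inl, Sum.elim_inr]
    rw [hu, Finset.mul_sum, Finset.mul_sum, ← Finset.sum_sub_distrib]
    congr 1
    refine Finset.sum_congr rfl fun j _ => ?_
    ring
  have hPf : ∀ k, (PP a).eval ((starRingEnd ℂ) (f k)) = 2 * (DD a w).eval ((starRingEnd ℂ) (f k)) := by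
    intro k
    have h1 : (PP f).eval ((starRingEnd ℂ) (f k)) = 0 := by
      rw [PP_eval]
      apply Finset.prod_eq_zero (mem_univ k)
      rw [Complex.mul_conj, Complex.normSq_eq_norm_sq, hf k]; simp
    rw [hQ] at h1
    simp only [Polynomial.eval_sub, Polynomial.eval_mul, Polynomial.eval_ofNat] at h1
    linear_combination -h1
  have hDf : ∀ k, (DD a w).eval ((starRingEnd ℂ) (f k)) ≠ 0 := by
    intro k h
    have := (DD_root a ha hinj w hw hsum _ h).1
    rw [hcf k] at this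
    exact lt_irrefl _ this
  have hUf : ∀ k, ∑ i, Sum.elim (fun j => w j - 1 / N) (fun _ : Fin m => 1 / N) i *
        Real.log ‖1 - Sum.elim a b i * (starRingEnd ℂ) (f k)‖
      = u ((starRingEnd ℂ) (f k)) - (1 / N) * Real.log 2 := by
    intro k
    rw [hU _ (hx k) (fun i => hlt2 _ _ (hbn i) (hcf k).le), hPf k, norm_mul,
      Real.log_mul (by simp) (norm_ne_zero_iff.2 (hDf k))]
    simp only [Complex.norm_ofNat]
    ring
  have hPbb : ∀ i, (DD a w).eval ((starRingEnd ℂ) (b i)) = (PP a).eval ((starRingEnd ℂ) (b i)) := by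
    intro i
    have hne : ∀ j, 1 - a j * (starRingEnd ℂ) (b i) ≠ 0 := fun j => hlt1 _ _ (ha j).le (hcb i)
    rw [DD_eval_ne a w _ hne]
    have h1 := (hbr i).2
    have h2 := congrArg (starRingEnd ℂ) h1
    rw [map_sum, map_zero] at h2
    have hw1 : ∑ j, (w j : ℂ) = 1 := by
      rw [← Complex.ofReal_sum, hsum]; simp
    have h3 : ∑ j, (w j : ℂ) / (1 - a j * (starRingEnd ℂ) (b i)) = 1 := by
      have h4 : ∀ j, (w j : ℂ) / (1 - a j * (starRingEnd ℂ) (b i))
          = (w j : ℂ) - (starRingEnd ℂ) ((w j : ℂ) / (1 - a j * (b i)⁻¹)) := by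
        intro j
        have haa : a j * (starRingEnd ℂ) (a j) = 1 := by
          rw [Complex.mul_conj, Complex.normSq_eq_norm_sq, ha j]; simp
        have hb' : (starRingEnd ℂ) (b i) ≠ 0 := by
          intro h
          apply hb0 i
          simpa using h
        simp only [map_div₀, map_sub, map_mul, map_one, map_inv₀, Complex.conj_ofReal]
        set B := (starRingEnd ℂ) (b i)
        set A := (starRingEnd ℂ) (a j)
        have h5 : 1 - a j * B ≠ 0 := hne j
        have h6 : B - A ≠ 0 := by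
          intro h
          apply h5
          rw [sub_eq_zero.1 h, haa, sub_self]
        have h7 : (1 : ℂ) - A * B⁻¹ = (B - A) / B := by field_simp
        rw [h7]
        have h8 : (w j : ℂ) / ((B - A) / B) = w j * B / (B - A) := by field_simp
        rw [h8, div_eq_iff h5]
        have h9 : ((w j : ℂ) - w j * B / (B - A)) * (1 - a j * B)
            = (w j : ℂ) * (-A * (1 - a j * B)) / (B - A) := by
          field_simp
          ring
        rw [h9, eq_div_iff h6]
        linear_combination (-(w j : ℂ)) * B * haa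
      rw [Finset.sum_congr rfl fun j _ => h4 j, Finset.sum_sub_distrib, h2, hw1, sub_zero]
    rw [h3, mul_one]
  have hUb : ∀ k, ∑ i, Sum.elim (fun j => w j - 1 / N) (fun _ : Fin m => 1 / N) i *
        Real.log ‖1 - Sum.elim a b i * (starRingEnd ℂ) (b k)‖ = u ((starRingEnd ℂ) (b k)) := by
    intro k
    rw [hU _ (fun i => hlt1 _ _ (ha i).le (hcb k)) (fun i => hlt2 _ _ (hbn i) (hcb k).le), hPbb k]
    ring
  rw [Fintype.sum_sum_type] at hE
  simp only [Sum.elim_inl, Sum.elim_inr] at hE hUf hUb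
  rw [Finset.sum_congr rfl (fun k _ => by rw [hUf k]),
    Finset.sum_congr rfl (fun k (_ : k ∈ (univ : Finset (Fin m))) => by rw [hUb k])] at hE
  -- the balance identity
  have hS : ∑ k, u ((starRingEnd ℂ) (f k)) = Real.log 2 + ∑ i, u ((starRingEnd ℂ) (b i)) := by
    have h1 : ∀ j, ∑ k, Real.log ‖1 - a j * (starRingEnd ℂ) (f k)‖
        = Real.log 2 + ∑ i, Real.log ‖1 - a j * (starRingEnd ℂ) (b i)‖ := by
      intro j
      have hconj : ∀ y : ℂ, ‖1 - a j * (starRingEnd ℂ) y‖ = ‖1 - y * (starRingEnd ℂ) (a j)‖ := by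
        intro y
        rw [← RCLike.norm_conj]
        congr 1
        simp [mul_comm]
      have h2 : ∀ k, 1 - f k * (starRingEnd ℂ) (a j) ≠ 0 := by
        intro k
        rw [← norm_ne_zero_iff, ← hconj, norm_ne_zero_iff]
        exact hx k j
      have h3 : ∀ i, 1 - b i * (starRingEnd ℂ) (a j) ≠ 0 := fun i => hlt2 _ _ (hbn i) (hca j).le
      have h4 : 1 - a j * (starRingEnd ℂ) (a j) = 0 := by
        rw [Complex.mul_conj, Complex.normSq_eq_norm_sq, ha j]; simp
      have h5 : (PP a).eval ((starRingEnd ℂ) (a j)) = 0 := by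
        rw [PP_eval]; exact Finset.prod_eq_zero (mem_univ j) h4
      have h6 : (DD a w).eval ((starRingEnd ℂ) (a j)) ≠ 0 := DD_ne_of_zero a hinj w hw _ j h4
      have h7 : (PP f).eval ((starRingEnd ℂ) (a j)) = 2 * (DD a w).eval ((starRingEnd ℂ) (a j)) := by
        rw [hQ]
        simp only [Polynomial.eval_sub, Polynomial.eval_mul, Polynomial.eval_ofNat]
        rw [h5, sub_zero]
      simp only [hconj]
      rw [← log_PP f _ h2, ← log_PP b _ h3, h7, hPb, norm_mul,
        Real.log_mul (by simp) (norm_ne_zero_iff.2 h6)]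
      simp
    rw [hu]
    simp only
    rw [Finset.sum_comm, Finset.sum_comm (s := (univ : Finset (Fin m)))]
    have h2 : ∀ j, ∑ k, w j * Real.log ‖1 - a j * (starRingEnd ℂ) (f k)‖
        = w j * Real.log 2 + ∑ i, w j * Real.log ‖1 - a j * (starRingEnd ℂ) (b i)‖ := by
      intro j
      rw [← Finset.mul_sum, h1 j, mul_add, Finset.mul_sum]
    rw [Finset.sum_congr rfl fun j _ => h2 j, Finset.sum_add_distrib, ← Finset.sum_mul, hsum, one_mul]
  have hfin : Real.log 2 / N ≤ ∑ k, c k * u ((starRingEnd ℂ) (f k)) := by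
    have h1 : ∑ k, (c k - 1 / N) * (u ((starRingEnd ℂ) (f k)) - 1 / N * Real.log 2)
        = ∑ k, c k * u ((starRingEnd ℂ) (f k)) - (1 / N) * ∑ k, u ((starRingEnd ℂ) (f k))
          - (1 / N * Real.log 2) * (∑ k, c k) + (1 / N * Real.log 2) * (n * (1 / N)) := by
      have h2 : ((n : ℝ) * (1 / N)) = ∑ k : Fin n, (1 / N) := by simp
      rw [h2, Finset.mul_sum, Finset.mul_sum, Finset.mul_sum, ← Finset.sum_sub_distrib,
        ← Finset.sum_sub_distrib, ← Finset.sum_add_distrib]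
      refine Finset.sum_congr rfl fun k _ => ?_
      ring
    rw [h1, hcs, hS, hnN, ← Finset.mul_sum] at hE
    have h3 : N * (1 / N) = 1 := by field_simp
    rw [h3] at hE
    have h4 : Real.log 2 / N = 1 / N * Real.log 2 := by ring
    rw [h4]
    nlinarith [hE]
  -- choose a point
  by_contra hcon
  push Not at hcon
  have h1 : ∀ k, u ((starRingEnd ℂ) (f k)) < Real.log 2 / N := fun k =>
    hcon _ (hcf k) (hx k)
  have hpos : 0 < n := by rw [hn]; exact Fintype.card_pos
  have : Nonempty (Fin n) := ⟨⟨0, hpos⟩⟩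
  have h2 : ∑ k, c k * u ((starRingEnd ℂ) (f k)) < ∑ k, c k * (Real.log 2 / N) := by
    apply Finset.sum_lt_sum_of_nonempty Finset.univ_nonempty
    intro k _
    exact mul_lt_mul_of_pos_left (h1 k) (hc k)
  rw [← Finset.sum_mul, hcs, one_mul] at h2
  linarith

end

/-- **Full answer to Q1 (positive).** -/
theorem result : ∀ (r : ℕ), 1 ≤ r → ∀ (z : Fin r → ℂ), (∀ j, ‖z j‖ = 1) →
    ∀ (p : Fin r → ℝ), (∀ j, 0 ≤ p j) → ∑ j, p j = (r : ℝ) →
    ∃ ζ : ℂ, ‖ζ‖ = 1 ∧ 2 ≤ ∏ j, ‖ζ - z j‖ ^ (p j) := by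
  intro r hr z hz p hp hsum
  have hr0 : (0 : ℝ) < r := by exact_mod_cast hr
  set S : Finset (Fin r) := univ.filter fun j => 0 < p j with hS
  set A : Finset ℂ := S.image z with hA
  have hzero : ∀ j, j ∉ S → p j = 0 := by
    intro j hj
    rw [hS, Finset.mem_filter] at hj
    push Not at hj
    exact le_antisymm (hj (mem_univ j)) (hp j)
  have hsumS : ∀ g : Fin r → ℝ, ∑ j, p j * g j = ∑ j ∈ S, p j * g j := by
    intro g
    symm
    apply Finset.sum_subset (Finset.subset_univ S)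
    intro j _ hj
    rw [hzero j hj, zero_mul]
  have hSne : S.Nonempty := by
    by_contra h
    rw [Finset.not_nonempty_iff_eq_empty] at h
    have h1 := hsumS fun _ => 1
    rw [h] at h1
    simp only [mul_one, Finset.sum_empty] at h1
    rw [hsum] at h1
    linarith
  have hAne : A.Nonempty := hSne.image z
  have hAcard : A.card ≤ r := by
    calc A.card ≤ S.card := Finset.card_image_le
      _ ≤ (univ : Finset (Fin r)).card := Finset.card_le_univ S
      _ = r := by simp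
  have hA1 : ∀ α ∈ A, ‖α‖ = 1 := by
    intro α hα
    obtain ⟨j, _, rfl⟩ := Finset.mem_image.1 hα
    exact hz j
  set W : ℂ → ℝ := fun α => (∑ j ∈ S.filter (fun j => z j = α), p j) / r with hW
  have hWpos : ∀ α ∈ A, 0 < W α := by
    intro α hα
    obtain ⟨j, hj, hjα⟩ := Finset.mem_image.1 hα
    rw [hW]
    apply div_pos _ hr0
    apply Finset.sum_pos
    · intro i hi
      exact (Finset.mem_filter.1 (Finset.mem_filter.1 hi).1).2
    · exact ⟨j, Finset.mem_filter.2 ⟨hj, hjα⟩⟩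
  have hfib : ∀ g : ℂ → ℝ, ∑ α ∈ A, W α * g α = (∑ j, p j * g (z j)) / r := by
    intro g
    rw [hsumS (fun j => g (z j))]
    have h1 : ∀ α ∈ A, W α * g α = (∑ j ∈ S.filter (fun j => z j = α), p j * g (z j)) / r := by
      intro α _
      rw [hW, div_mul_eq_mul_div, Finset.sum_mul]
      congr 1
      refine Finset.sum_congr rfl fun j hj => ?_
      rw [(Finset.mem_filter.1 hj).2]
    rw [Finset.sum_congr rfl h1, ← Finset.sum_div]
    congr 1
    exact Finset.sum_fiberwise_of_maps_to (fun j hj => Finset.mem_image_of_mem z hj) _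
  have hWsum : ∑ α ∈ A, W α = 1 := by
    have h1 := hfib fun _ => 1
    simp only [mul_one] at h1
    rw [h1, hsum]
    exact div_self hr0.ne'
  have hne : Nonempty {x // x ∈ A} := hAne.to_subtype
  obtain ⟨ζ, hζ, hζne, hζlog⟩ := core (ι := {x // x ∈ A}) (fun i => (starRingEnd ℂ) i.1)
    (fun i => by rw [RCLike.norm_conj]; exact hA1 _ i.2)
    (fun i j hij => Subtype.ext (star_injective hij))
    (fun i => W i.1) (fun i => hWpos _ i.2)
    (by rw [← hWsum]; exact (Finset.sum_coe_sort A W))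
  have hnorm : ∀ α ∈ A, ‖1 - (starRingEnd ℂ) α * ζ‖ = ‖ζ - α‖ := by
    intro α hα
    have h1 : (starRingEnd ℂ) α * α = 1 := by
      rw [mul_comm, Complex.mul_conj, Complex.normSq_eq_norm_sq, hA1 α hα]; simp
    have h2 : 1 - (starRingEnd ℂ) α * ζ = (starRingEnd ℂ) α * (α - ζ) := by
      rw [mul_sub, h1]
    rw [h2, norm_mul, RCLike.norm_conj, hA1 α hα, one_mul, norm_sub_rev]
  have hcard : Fintype.card {x // x ∈ A} = A.card := Fintype.card_coe A
  rw [hcard] at hζlog
  have h1 : ∑ j : {x // x ∈ A}, W j.1 * Real.log ‖1 - (starRingEnd ℂ) j.1 * ζ‖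
      = ∑ α ∈ A, W α * Real.log ‖ζ - α‖ := by
    rw [Finset.sum_coe_sort A (fun α => W α * Real.log ‖1 - (starRingEnd ℂ) α * ζ‖)]
    refine Finset.sum_congr rfl fun α hα => ?_
    rw [hnorm α hα]
  rw [h1, hfib fun α => Real.log ‖ζ - α‖] at hζlog
  refine ⟨ζ, hζ, ?_⟩
  have h2 : ∏ j, ‖ζ - z j‖ ^ (p j) = Real.exp (∑ j, p j * Real.log ‖ζ - z j‖) := by
    rw [Real.exp_sum]
    refine Finset.prod_congr rfl fun j _ => ?_
    by_cases hj : j ∈ S
    · have h3 : z j ∈ A := Finset.mem_image_of_mem z hj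
      have h4 : 0 < ‖ζ - z j‖ := by
        rw [← hnorm _ h3]
        exact norm_pos_iff.2 (hζne ⟨z j, h3⟩)
      rw [Real.rpow_def_of_pos h4, mul_comm]
    · rw [hzero j hj]; simp
  rw [h2]
  have hlog2 : 0 < Real.log 2 := Real.log_pos (by norm_num)
  have hAc : (0 : ℝ) < A.card := by exact_mod_cast hAne.card_pos
  have hAr : (A.card : ℝ) ≤ r := by exact_mod_cast hAcard
  have h5 : Real.log 2 ≤ ∑ j, p j * Real.log ‖ζ - z j‖ := by
    rw [div_le_div_iff₀ hAc hr0] at hζlog
    by_contra hcon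
    push Not at hcon
    by_cases hs : 0 ≤ ∑ j, p j * Real.log ‖ζ - z j‖
    · nlinarith
    · push Not at hs
      nlinarith
  calc (2 : ℝ) = Real.exp (Real.log 2) := (Real.exp_log (by norm_num)).symm
    _ ≤ _ := Real.exp_le_exp.2 h5

end Pool.Agent.Results.MP_280d4a_an.WeightedDistances
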